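import Pool.Agent.T9h40.PE.EC
set_option autoImplicit false

/-!
Density of the regulator `H²(U, ℚ(2)) → H²_H(U, ℚ(2)) = H¹(U, ℂ/ℚ(2))` for all smooth curves `U` of
genus one over the complex numbers, projective or affine.

Let `E` be an elliptic curve over `ℂ`.  For a finite set `S` of points of `E` that contains the
origin the real span of the image of the regulator in `H¹(E ∖ S, ℝ(1))` (of real dimension
`#S + 1`) is everything if and only if the image of `K_2(E) ⊗ ℚ` spans `H¹(E, ℝ(1))` and the
vectors `(log |∂_P α|)_P` of the logarithms of the absolute values of the tame symbols of the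
elements `α` of `K_2(E ∖ S) ⊗ ℚ` span the space of the vectors with sum zero.  The first condition
is the case `g = 1` of TwoTorsionPairs, since every elliptic curve over `ℂ` has a model
`w² = (u² + a)² - 4` (part 1 of the theorem).  The second condition follows from part 2 of the
theorem, which gives for every point `P` an element whose only tame symbols are `c` at `P` and
`1 / c` at the origin, where `|c| ≠ 1`.

The proof of part 2: for `y² = x (x - σ²) (x - τ²)` and `ρ = i (σ - τ)` the divisor of
`z = (y + ρ x) / (y - ρ x)` is a multiple of `Q - (-Q)`, where `x(Q) = σ τ`, and the element is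
`{z / z(-P), (x - x(P)) / (x(Q) - x(P))}`, with the tame symbol `z(P)²` at `P`.  If `|z(P)| = 1`
for `ρ = i (σ - τ)` and for `ρ = i (σ + τ)`, then `P` is a point of order two or `σ / τ` is real;
the latter is avoided by the choice of the order of the roots.
-/

namespace Pool.Agent.Results.MP_b2b689_ag.OpenEllipticCurves

open Pool.Agent.TH826.MK (KQ symb unitPart)

open scoped WithZero

/-- Let `W` be an elliptic curve over `ℂ` (a Weierstrass curve with nonzero discriminant), and let
`L` be its function field, with the constants `k : ℂ → L` and the coordinate functions `x`, `y`: the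
function `x` is not constant, `x` and `y` satisfy the Weierstrass equation, and they generate `L`
over the constants.

Part 1. There are `a` with `a² ≠ 4` and generators `u`, `w` of `L` with `w² = (u² + a)² - 4`.

Part 2. For every affine point `(x₀, y₀)` of `W` there are an element `S` of `K_2(L) ⊗ ℚ` and a
nonzero complex number `c` with `|c| ≠ 1` such that for all discrete valuations `v` of `L` that are
trivial on `ℂ`, and for all elements `π` of order one:
* if `v` is not the point at infinity and not the point `(x₀, y₀)`, then `S` is unramified at `v`,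
* if `v` is the point `(x₀, y₀)`, then `S - {c, π}` is unramified at `v`,
* if `v` is the point at infinity, then `S + {c, π}` is unramified at `v`.
So the tame symbols of `S` are those of `c ⊗ ((x₀, y₀) - ∞)`. -/
theorem result.{u} (W : WeierstrassCurve ℂ) (hW : W.Δ ≠ 0) (L : Type u) [Field L]
    (k : ℂ →+* L) (x y : L) (hx : ∀ a, x ≠ k a)
    (hxy : y ^ 2 + k W.a₁ * x * y + k W.a₃ * y =
      x ^ 3 + k W.a₂ * x ^ 2 + k W.a₄ * x + k W.a₆)
    (hL : ∀ z : L, z ∈ Subfield.closure (Set.range k ∪ {x, y})) :
    (∃ (a : ℂ) (u w : L), a ^ 2 ≠ 4 ∧ w ^ 2 = (u ^ 2 + k a) ^ 2 - 4 ∧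
      ∀ z : L, z ∈ Subfield.closure (Set.range k ∪ {u, w})) ∧
    (∀ x₀ y₀ : ℂ, y₀ ^ 2 + W.a₁ * x₀ * y₀ + W.a₃ * y₀ =
        x₀ ^ 3 + W.a₂ * x₀ ^ 2 + W.a₄ * x₀ + W.a₆ →
      ∃ (S : KQ L 2) (c : ℂˣ), ‖(c : ℂ)‖ ≠ 1 ∧
        ∀ v : Valuation L ℤᵐ⁰, Function.Surjective v → (∀ a : ℂ, a ≠ 0 → v (k a) = 1) →
          ∀ π : Lˣ, v (π : L) = WithZero.exp (-1) →
          (v x ≤ 1 → ¬ (v (x - k x₀) < 1 ∧ v (y - k y₀) < 1) → S ∈ unitPart v 2) ∧
          (v (x - k x₀) < 1 → v (y - k y₀) < 1 →
            S - symb ![Units.map (k : ℂ →* L) c, π] ∈ unitPart v 2) ∧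
          (1 < v x → S + symb ![Units.map (k : ℂ →* L) c, π] ∈ unitPart v 2)) := by
  have hG := Pool.Agent.T9h40.PE.gen_weier W hxy hL
  exact ⟨Pool.Agent.T9h40.PE.model2 W hW hG hx hxy,
    fun x₀ y₀ h0 => Pool.Agent.T9h40.PE.weier W hW hG hx hxy h0⟩

end Pool.Agent.Results.MP_b2b689_ag.OpenEllipticCurves
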