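import Pool.Agent.T9h40.PE.Main
set_option autoImplicit false

/-!
The regulator `H²(U, ℚ(2)) → H²_H(U, ℚ(2)) = H¹(U, ℂ/ℚ(2))` for affine open parts `U = X ∖ T` of
hyperelliptic curves `X : y² = D(x)` of genus `g` with two torsion pairs, that is, the difference of
the two points at infinity and the difference of the two points with `x = 0` are torsion.

By TwoTorsionPairs the regulator of `X` itself has dense image. For `X ∖ T` the additional condition
is that the vectors `(log |∂_P α|)_P` of the logarithms of the absolute values of the tame symbols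
of the elements `α` of `K_2(X ∖ T) ⊗ ℚ` span the space of the vectors with sum zero. If `T` contains
a point `(β, 0)` with `D(β) = 0`, it is sufficient to find for the other points `P` of `T` elements
of `K_2 ⊗ ℚ` of the function field whose only tame symbols are `c` at `P` and `1 / c` at `(β, 0)`,
where `|c| ≠ 1`.  The theorem gives such elements for all points `P` of the projective curve `X`
except for those with `|z₁(P)| = |z₂(P)| = 1` and `y(P) ≠ 0`, where `z₁ = P + Q y` and
`z₂ = (A + B y) / x ^ m` are the functions of the two torsion pairs, and it shows that the curves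
`y² = (x ^ (g + 1) + a)² - 4` have no such exceptional points, if `a` is not real or `|a| < 2`.
-/

namespace Pool.Agent.Results.MP_b2b689_ag.OpenHyperelliptic

open Polynomial

open Pool.Agent.TH826.MK (KQ symb unitPart)

open scoped WithZero

/-- Let `k : ℂ → L` be the constants of a function field `L`, and let `P` and `Q` be two properties
of discrete valuations of `L` that are trivial on the constants (points of the curve). The element
`S` of `K_2(L) ⊗ ℚ` has tame symbols `c` at the points with `P`, `1 / c` at the points with `Q`, and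
is unramified at the other points: for every discrete valuation `v` that is trivial on the
constants, and for every element `π` of order one, `S - {c, π}` is unramified at `v` if `P v`, and
`S + {c, π}` is unramified at `v` if `Q v`, and `S` is unramified at `v` otherwise. -/
def Boundary {L : Type*} [Field L] (k : ℂ →+* L) (P Q : Valuation L ℤᵐ⁰ → Prop) (S : KQ L 2)
    (c : ℂˣ) : Prop :=
  ∀ v : Valuation L ℤᵐ⁰, Function.Surjective v → (∀ a : ℂ, a ≠ 0 → v (k a) = 1) →
    ∀ π : Lˣ, v (π : L) = WithZero.exp (-1) →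
    (P v → S - symb ![Units.map (k : ℂ →* L) c, π] ∈ unitPart v 2) ∧
    (Q v → S + symb ![Units.map (k : ℂ →* L) c, π] ∈ unitPart v 2) ∧
    (¬ P v → ¬ Q v → S ∈ unitPart v 2)

/-- Part 1. Let `D` be a squarefree complex polynomial of degree `2 g + 2`, let `P² - D Q² = 1` with
`P` not constant, and let `A² - D B² = x ^ (2 m)` with `m > 0`, `deg A ≤ m` and `A(0) ≠ 0`. Let `L`
be the function field of the curve `X : y² = D(x)`, with the constants `k : ℂ → L`: the function `x`
is not constant, `y² = D(x)`, and `x` and `y` generate `L` over the constants. Let `D(β) = 0`.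

For every point `(b, y₀)` of the affine curve, different from `(β, 0)`, such that `y₀ = 0` or
`b = 0` or `|P(b) + Q(b) y₀| ≠ 1` or `|A(b) + B(b) y₀| ≠ |b| ^ m`, and for the two points at
infinity (the points where `x` and `P + Q y`, or `x` and `P - Q y`, have poles), there are an
element `S` of `K_2(L) ⊗ ℚ` and a complex number `c` with `|c| ≠ 1` such that `S` has the tame
symbol `c` at this point and `1 / c` at `(β, 0)`, and is unramified at all the other points.

Part 2. For all `g` and all `a` that are not real or satisfy `|a| < 2` the polynomial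
`D = (x ^ (g + 1) + a)² - 4` satisfies the hypotheses of part 1, and all the points of the affine
curve satisfy the condition of part 1. -/
theorem result.{u} :
    (∀ (g m : ℕ) (D P Q A B : ℂ[X]), Squarefree D → D.natDegree = 2 * g + 2 →
      P ^ 2 - D * Q ^ 2 = 1 → A ^ 2 - D * B ^ 2 = X ^ (2 * m) → 0 < P.natDegree → 0 < m →
      A.natDegree ≤ m → A.eval 0 ≠ 0 →
      ∀ (L : Type u) [Field L] (k : ℂ →+* L) (x y : L), (∀ a, x ≠ k a) → y ^ 2 = D.eval₂ k x →
      (∀ z : L, z ∈ Subfield.closure (Set.range k ∪ {x, y})) →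
      ∀ β : ℂ, D.eval β = 0 →
      (∀ b y₀ : ℂ, y₀ ^ 2 = D.eval b → b ≠ β →
        (y₀ = 0 ∨ b = 0 ∨ ‖P.eval b + Q.eval b * y₀‖ ≠ 1 ∨
          ‖A.eval b + B.eval b * y₀‖ ≠ ‖b‖ ^ m) →
        ∃ (S : KQ L 2) (c : ℂˣ), ‖(c : ℂ)‖ ≠ 1 ∧
          Boundary k (fun v => v (x - k b) < 1 ∧ v (y - k y₀) < 1)
            (fun v => v (x - k β) < 1) S c) ∧
      (∀ Q' : ℂ[X], (Q' = Q ∨ Q' = -Q) →
        ∃ (S : KQ L 2) (c : ℂˣ), ‖(c : ℂ)‖ ≠ 1 ∧
          Boundary k (fun v => 1 < v x ∧ 1 < v (P.eval₂ k x + Q'.eval₂ k x * y))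
            (fun v => v (x - k β) < 1) S c)) ∧
    (∀ (g : ℕ) (a : ℂ), (a.im ≠ 0 ∨ |a.re| < 2) → ∃ D P Q A B : ℂ[X],
      D = (X ^ (g + 1) + C a) ^ 2 - C 4 ∧ Squarefree D ∧ D.natDegree = 2 * g + 2 ∧
      P ^ 2 - D * Q ^ 2 = 1 ∧ A ^ 2 - D * B ^ 2 = X ^ (2 * (g + 1)) ∧
      0 < P.natDegree ∧ A.natDegree ≤ g + 1 ∧ A.eval 0 ≠ 0 ∧
      ∀ b y₀ : ℂ, y₀ ^ 2 = D.eval b → y₀ = 0 ∨ b = 0 ∨ ‖P.eval b + Q.eval b * y₀‖ ≠ 1 ∨
        ‖A.eval b + B.eval b * y₀‖ ≠ ‖b‖ ^ (g + 1)) := by
  refine ⟨?_, Pool.Agent.T9h40.PE.family⟩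
  intro g m D P Q A B hsq hdeg hPQ hAB hP hm hA hA0 L _ k x y hx hxy hL β hβ
  exact ⟨fun b y₀ h0 hbβ hc =>
      Pool.Agent.T9h40.PE.ptsA hsq hPQ hAB hm hA hA0 hx hxy hL hβ h0 hbβ hc,
    fun Q' hQ' => Pool.Agent.T9h40.PE.ptsI hsq hdeg hPQ hP hx hxy hL hβ hQ'⟩

end Pool.Agent.Results.MP_b2b689_ag.OpenHyperelliptic
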