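import Pool.Agent.T9h40.GC.All
import Pool.Agent.T9h40.GC.G1
import Pool.Agent.T9h73.GC.G2

/-!
# The regulator of `K_2` of small open subsets of curves

`V ⊆ ℂ × ℂ^(r+1)` is an affine curve with coordinates `x, w_0, ..., w_r`, finite over the `x`-line
and unramified over `x = ∞`, given by the data of `HypC`. `U₀` is `V` minus the zeros of the
functions `u_l = w_0 - A_{0,l}(x)` and minus the fibres over a given finite set `Z₁`. The theorem
removes finitely many further points `N = NN V Z S` (as far away as one likes, defined over a given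
dense set `K`, for instance the algebraic numbers), such that for `U = U₀ - N` the symbols `{f, g}`
of explicit units of `U` have regulators which span all of `H¹(U, ℝ)`: their integrals along the
paths `γ_k` (a basis of `H_1(U₀)`) and their residues `log |T_p{f,g}|`, `p ∈ N`, span
`ℝ^m × ℝ^N`.
-/

open Polynomial Filter Topology Bornology

namespace Pool.Agent.Results.MP_b2b689_ag.SmallOpenCurves

open Pool.Agent.T9h40.GP (HypP)
open Pool.Agent.T9h40.GC

theorem result :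
    -- (1) the theorem for all curves
    (∀ (n r : ℕ) (e : Fin (r + 1) → ℕ) (P : Fin (r + 1) → Polynomial ℂ[X])
      (A : Fin (r + 1) → Fin n → ℂ[X]) (V : Set (Pt r)), HypC n r e P A V →
      ∀ (K : Set ℂ), Dense K → ∀ (Z₁ : Finset ℂ) (m : ℕ) (γ : Fin m → Pth r),
      (∀ k, OnU V A Z₁ (γ k)) → Indep A Z₁ γ → ∀ R₀ : ℝ,
      ∃ (Z : Finset ℂ) (S : Finset (Fin (r + 1) × ℂ)), (∀ t ∈ Z, t ∈ K) ∧ (∀ q ∈ S, q.2 ∈ K) ∧
        (∀ p ∈ NN V Z S, R₀ < ‖p.1‖ ∧ (∀ i, evalEval p.1 (p.2 i) (derivative (P i)) ≠ 0) ∧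
          ∀ l, p.2 0 ≠ (A 0 l).eval p.1) ∧
        (∀ q ∈ S, ∀ x, evalEval x q.2 (P q.1) = 0 →
          (derivative ((P q.1).eval (C q.2))).eval x ≠ 0) ∧
        (∀ t ∈ Z, ∀ q ∈ S, evalEval t q.2 (P q.1) ≠ 0) ∧
        (NN V Z S).Finite ∧
        Submodule.span ℝ {v : (Fin m → ℝ) × (NN V Z S → ℝ) | ∃ f g : Fn n r,
          f.Adm (Z ∪ Z₁) S ∧ g.Adm (Z ∪ Z₁) S ∧
          (∀ p ∈ NN V Z S, ¬ (f.val A p = 0 ∧ g.val A p = 0)) ∧
          v = (fun k => rgv A f g (γ k), fun p => tm A f g p.1)} = ⊤) ∧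
    -- (2) plane curves with `n` branches `A_l(x) + o(1)` at infinity are examples (`r = 0`)
    (∀ (n e : ℕ) (P : Polynomial ℂ[X]) (A : Fin n → ℂ[X]), HypP n e P A →
      HypC n 0 (fun _ => e) (fun _ => P) (fun _ => A)
        {p : Pt 0 | evalEval p.1 (p.2 0) P = 0}) ∧
    -- (3) in particular `y^n = D(x)`
    (∀ (n e : ℕ), 2 ≤ n → 1 ≤ e → ∀ D : ℂ[X], D.Monic → D.natDegree = n * e →
      (∀ B : ℂ[X], B ^ n ≠ D) → ∃ A : Fin n → ℂ[X], HypP n e (X ^ n - C D) A) :=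
  ⟨final, plane, Pool.Agent.T9h73.GC.superEll⟩

end Pool.Agent.Results.MP_b2b689_ag.SmallOpenCurves
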