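import Pool.Agent.T9h73.TP.Asm
import Pool.Agent.N76.LP.All
set_option autoImplicit false

/-!
Density of the regulator `H²(X, ℚ(2)) → H²_H(X, ℚ(2)) = H¹(X, ℂ/ℚ(2))` for the hyperelliptic curves
`X : y² = D(x)` of genus `g` with two torsion pairs: the difference of the two points at infinity
and the difference of the two points with `x = 0` are torsion.  There are no further conditions on
the curve.

The proof: let `L₁`, `L₂` be the logarithms of the absolute values of branches of the two units near
`x = 0`, and let `G₁(b)`, `G₂(b)` be the regulator integrals (over a real combination of loops) of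
the symbols `{z₁, (x - b) / (x - b₁)}` and `{z₂, (x - b) b₁ / ((x - b₁) b)}`. If the combination is
orthogonal to all special symbols, then `L₂ G₁ = L₁ G₂` at the dense set of the points `b` where
`L₁ / L₂` is rational, hence near `0`. Two Wirtinger derivatives and polarisation give a relation
between holomorphic functions of two variables, and the pole of `dz₂ / z₂` at `x = 0` shows that
the first integral is a multiple of `dz₁ / z₁` near `0`; the differential equation of the first
integral has no rational solutions, and so the periods of the combination vanish.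
-/

namespace Pool.Agent.Results.MP_b2b689_ag.TwoTorsionPairs

open Polynomial

open Pool.Agent.TH826.MK (KQ symb Torus)

open Pool.Agent.TH826.HD (UnramifiedOver)

open Pool.Agent.Y94.R

open Pool.Agent.T9h73.TP (sy exists_r exists_s core off_root sp_root reg_sy sy_unramified Un
  Sp rhoU zU)

/-- Part 1. Let `D` be a squarefree complex polynomial of degree `2 g + 2`, and let `X` be the
smooth projective model of the curve `y² = D(x)`. Let `P² - D Q² = 1` with `P` not constant, and let
`A² - D B² = x ^ (2 k)` with `k > 0`, `deg A ≤ k` and `A(0) ≠ 0`, so that the divisors of the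
functions `z₁ = P(x) + Q(x) y` and `z₂ = (A(x) + B(x) y) / x ^ k` are nonzero multiples of
`∞₊ - ∞₋` and `0₊ - 0₋`. The coordinate ring of the affine curve `y² = D(x)` is a domain, and the
curve is smooth.

There are `2 g` loops `γ_l = (x_l, y_l)` in the complex points of the curve with `y_l ≠ 0` and
`x_l ≠ 0` whose period vectors `(∫ x^j dx / y)_{j < g}` are linearly independent over `ℝ` (so they
are a basis of the first homology of `X` with rational coefficients).

Let `γ_l`, `1 ≤ l ≤ m`, be any loops with these properties (for example `m = 2 g`). Then there are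
a root `b_1` of `D` and, for `0 ≤ i < m`, nonzero complex numbers `b_(i+2)` and integers `p_i`,
`q_i`, such that the elements
`S_i = p_i {z₁, h_i} + q_i {z₂, h_i / h_i(0)}`, `h_i = (x - b_(i+2)) / (x - b_1)`,
are unramified at all discrete valuations of the function field that are trivial on `ℂ`, and the
`m` vectors `(reg_(γ_l) S_i)_l` of the regulators of the `S_i` on the loops are linearly independent
over `ℝ`.

Part 2. For all `g` and all `a` with `a² ≠ 4` the polynomial `D = (x ^ (g + 1) + a)² - 4` satisfies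
the hypotheses of part 1 (with `k = g + 1`). -/
theorem result.{u} :
    (∀ (g k : ℕ) (D P Q A B : ℂ[X]), Squarefree D → D.natDegree = 2 * g + 2 →
      ∀ (hPQ : P ^ 2 - D * Q ^ 2 = 1) (hAB : A ^ 2 - D * B ^ 2 = X ^ (2 * k)),
      0 < P.natDegree → 0 < k → A.natDegree ≤ k → A.eval 0 ≠ 0 →
      IsDomain (HRing D) ∧
      (∀ x y : ℂ, y ^ 2 = D.eval x → 2 * y ≠ 0 ∨ (derivative D).eval x ≠ 0) ∧
      (∃ γ : Fin (2 * g) → Lp D,
        (LinearIndependent ℝ fun (l : Fin (2 * g)) (j : Fin g) =>
          ∫ t in (0 : ℝ)..1, (γ l).x t ^ (j : ℕ) * deriv (γ l).x t / (γ l).y t) ∧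
        ∀ l t, (γ l).x t ≠ 0) ∧
      ∀ (m : ℕ) (γ : Fin m → Lp D),
        (LinearIndependent ℝ fun (l : Fin m) (j : Fin g) =>
          ∫ t in (0 : ℝ)..1, (γ l).x t ^ (j : ℕ) * deriv (γ l).x t / (γ l).y t) →
        (∀ l t, (γ l).x t ≠ 0) →
        ∃ (b : Fin (m + 2) → ℂ) (h0 : b 0 = 0) (p q : Fin m → ℤ),
          D.eval (b 1) = 0 ∧ (∀ i : Fin m, b i.succ.succ ≠ 0) ∧
          (∀ (L : Type u) [Field L] [Algebra (HRing D) L] [IsFractionRing (HRing D) L],
            ∃ f : HOpen D b →+* L,
              (∀ a : HRing D, f (toH D b a) = algebraMap (HRing D) L a) ∧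
              ∀ i : Fin m, KQ.map 2 f (sy b hPQ hAB h0 (p i) (q i) i.succ.succ 1) ∈
                UnramifiedOver (f.comp (hcst D b)) 2) ∧
          ∃ Γ : Fin m → Torus (HOpen D b) 1,
            (∀ l θ, (∀ c : ℂ, (Γ l).e θ (hcst D b c) = c) ∧
              (Γ l).e θ (toH D b (hpol D X)) = (γ l).x (θ 0) ∧
              (Γ l).e θ (toH D b (hy D)) = (γ l).y (θ 0)) ∧
            LinearIndependent ℝ fun (i : Fin m) (l : Fin m) =>
              (Γ l).reg (sy b hPQ hAB h0 (p i) (q i) i.succ.succ 1)) ∧
    (∀ (g : ℕ) (a : ℂ), a ^ 2 ≠ 4 → ∃ D P Q A B : ℂ[X],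
      D = (X ^ (g + 1) + C a) ^ 2 - C 4 ∧ Squarefree D ∧ D.natDegree = 2 * g + 2 ∧
      P ^ 2 - D * Q ^ 2 = 1 ∧ A ^ 2 - D * B ^ 2 = X ^ (2 * (g + 1)) ∧
      0 < P.natDegree ∧ A.natDegree ≤ g + 1 ∧ A.eval 0 ≠ 0) := by
  refine ⟨?_, ?_⟩
  · intro g k D P Q A B hD hdeg hPQ hAB hP hk hA hA0
    obtain ⟨r, hr⟩ := exists_r hPQ
    obtain ⟨s, hs⟩ := exists_s hAB hk hA0
    have h : Pell D P Q r := ⟨hPQ, hr, hP⟩
    have hu : Un D A B s k := ⟨hAB, hs, hk, hA0⟩
    have hrg := h.natDegree_r hdeg
    refine ⟨isDomain_HRing hD (by omega), ?_, ?_, ?_⟩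
    · intro x y hxy
      by_contra hcon
      push Not at hcon
      obtain ⟨h1, h2⟩ := hcon
      have h3 : y = 0 := by simpa using h1
      rw [h3, zero_pow two_ne_zero] at hxy
      obtain ⟨D1, hD1⟩ := dvd_iff_isRoot.2 (show D.IsRoot x from hxy.symm)
      have h4 : (X - C x) * (X - C x) ∣ D := by
        rw [hD1]
        refine mul_dvd_mul_left _ ?_
        rw [dvd_iff_isRoot]
        rw [hD1, derivative_mul] at h2
        simpa using h2
      exact Polynomial.not_isUnit_X_sub_C x (hD _ h4)
    · obtain ⟨γ, hγ1, hγ2, -⟩ := Pool.Agent.N76.LP.exists_loops (P := P) (r := X) hD hdeg hP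
        X_ne_zero
      exact ⟨γ, hγ1, fun l t => by simpa using hγ2 l t⟩
    · intro m γ hind hx
      have hid : ∀ p : ℂ[X], p.map (RingHom.id ℂ) = p := fun p => Polynomial.map_id
      obtain ⟨β, hβ⟩ : ∃ β, D.eval β = 0 := by
        refine IsAlgClosed.exists_root D ?_
        rw [degree_eq_natDegree hD.ne_zero, hdeg]
        exact_mod_cast (by omega : 2 * g + 2 ≠ 0)
      have hβ0 : β ≠ 0 := by
        rintro rfl
        exact hu.D_ne hβ
      obtain ⟨b', p, q, -, hb1, hb2, hb3⟩ := core γ hD h hu hx (fun c hc => by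
        rw [hrg]
        exact periods γ hind c hc) β
      obtain ⟨b, hb⟩ : ∃ b : Fin (m + 2) → ℂ, b = Fin.cons 0 (Fin.cons β b') := ⟨_, rfl⟩
      have h0 : b 0 = 0 := by rw [hb, Fin.cons_zero]
      have h1 : b 1 = β := by
        rw [hb, show (1 : Fin (m + 2)) = (0 : Fin (m + 1)).succ from rfl, Fin.cons_succ,
          Fin.cons_zero]
      have h2 : ∀ i : Fin m, b i.succ.succ = b' i := fun i => by
        rw [hb, Fin.cons_succ, Fin.cons_succ]
      have hoff : ∀ k l, (γ l).Off (b k) := by
        intro k l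
        refine Fin.cases ?_ (fun k => Fin.cases ?_ (fun k => ?_) k) k
        · rw [h0]
          intro t
          rw [sub_zero]
          exact hx l t
        · change (γ l).Off (b 1)
          rw [h1]
          exact off_root (γ l) hβ
        · rw [h2]
          exact hb1 k l
      have hsp : ∀ i : Fin m, Sp D P Q A B k (p i) (q i) (b i.succ.succ) := by
        intro i
        rw [h2]
        exact hb2 i
      have hsp1 : ∀ i : Fin m, Sp D P Q A B k (p i) (q i) (b 1) := by
        intro i
        rw [h1]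
        exact sp_root hPQ hAB hβ0 hβ _ _
      refine ⟨b, h0, p, q, by rw [h1]; exact hβ, fun i => (hsp i).1, ?_, ?_⟩
      · intro L _ _ _
        have hinj : Function.Injective (algebraMap (HRing D) L) := IsFractionRing.injective _ _
        have hne : algebraMap (HRing D) L (hDel D b) ≠ 0 := by
          rw [Ne, map_eq_zero_iff _ hinj]
          exact hDel_ne_zero b
        exact ⟨liftH (algebraMap (HRing D) L) hne, fun a => liftH_toH _ _ _,
          fun i => sy_unramified b hPQ hAB hA h0 (hsp i) (hsp1 i) _⟩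
      · have hp : Pell (D.map (RingHom.id ℂ)) (P.map (RingHom.id ℂ)) (Q.map (RingHom.id ℂ))
            (r.map (RingHom.id ℂ)) := by
          rw [hid, hid, hid, hid]
          exact h
        have hu' : Un (D.map (RingHom.id ℂ)) (A.map (RingHom.id ℂ)) (B.map (RingHom.id ℂ))
            (s.map (RingHom.id ℂ)) k := by
          rw [hid, hid, hid, hid]
          exact hu
        obtain ⟨γ', hγ'⟩ : ∃ γ' : Fin m → Lp (D.map (RingHom.id ℂ)), γ' = fun l =>
            ⟨(γ l).x, (γ l).y, (γ l).contDiff_x, (γ l).contDiff_y, (γ l).periodic_x,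
              (γ l).periodic_y, by rw [hid]; exact (γ l).eq, (γ l).ne⟩ := ⟨_, rfl⟩
        have hoff' : ∀ l k, (γ' l).Off ((RingHom.id ℂ) (b k)) := by
          intro l k
          rw [hγ']
          exact hoff k l
        refine ⟨fun l => mkH (γ' l) (hoff' l), fun l θ => ⟨fun c => ?_, ?_, ?_⟩, ?_⟩
        · rw [mkH_e, HPt.evA_hcst]
          rfl
        · rw [mkH_e, HPt.evA_toH, HPt.evB_hpol, eval₂_X, hγ']
        · rw [mkH_e, HPt.evA_toH, HPt.evB_hy, hγ']
        · have h3 : (fun (i : Fin m) (l : Fin m) => (mkH (γ' l) (hoff' l)).reg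
              (sy b hPQ hAB h0 (p i) (q i) i.succ.succ 1)) = fun (i : Fin m) (l : Fin m) =>
              (p i : ℝ) * ((γ l).rho P Q (b' i) - (γ l).rho P Q β) +
              (q i : ℝ) * (rhoU A B k (γ l) (b' i) - rhoU A B k (γ l) β) := by
            funext i l
            rw [reg_sy hPQ hp hAB h0 hu' (γ' l) (hoff' l) (hsp i).1 (hsp1 i).1, h1, h2, hγ']
            unfold Lp.rho Lp.z rhoU zU
            simp only [hid, RingHom.id_apply]
          rw [h3]
          exact hb3
  · intro g a ha
    obtain ⟨s, hs⟩ := IsAlgClosed.exists_pow_nat_eq (a ^ 2 - 4) two_pos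
    have hs0 : s ≠ 0 := by
      rintro rfl
      rw [zero_pow two_ne_zero] at hs
      exact ha (sub_eq_zero.1 hs.symm)
    have hC4 : (C 4 : ℂ[X]) = C 2 * C 2 := by
      rw [← C_mul]
      norm_num
    have h2 : (C (1 / 2) : ℂ[X]) * C 2 = 1 := by
      rw [← C_mul]
      norm_num
    have hCs : (C s : ℂ[X]) ^ 2 = C a ^ 2 - C 4 := by
      rw [← C_pow, ← C_pow, ← C_sub, hs]
    refine ⟨(X ^ (g + 1) + C a) ^ 2 - C 4, C (1 / 2) * (X ^ (g + 1) + C a), C (1 / 2),
      C (1 / 2) * (C s ^ 2 + C a * X ^ (g + 1)), C (1 / 2) * C s, rfl, ?_, ?_, ?_, ?_, ?_, ?_, ?_⟩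
    · refine Separable.squarefree ?_
      unfold Separable
      have h3 : derivative ((X ^ (g + 1) + C a) ^ 2 - C 4 : ℂ[X]) =
          C (2 * ((g : ℂ) + 1)) * (X ^ g * (X ^ (g + 1) + C a)) := by
        have h4 : (C ((2 : ℕ) : ℂ) : ℂ[X]) = C 2 := by norm_num
        rw [derivative_sub, derivative_C, derivative_pow, derivative_add, derivative_C,
          derivative_X_pow, h4, C_mul]
        simp only [Nat.add_one_sub_one, pow_one]
        push_cast
        rw [C_add, C_1, map_natCast]
        ring
      rw [h3]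
      have h5 : IsUnit (C (2 * ((g : ℂ) + 1)) : ℂ[X]) := by
        refine isUnit_C.2 (isUnit_iff_ne_zero.2 (mul_ne_zero two_ne_zero ?_))
        exact_mod_cast Nat.succ_ne_zero g
      refine (isCoprime_mul_unit_left_right h5 _ _).2 (IsCoprime.mul_right ?_ ?_)
      · refine IsCoprime.pow_right ?_
        have h6 : IsCoprime (X - C 0 : ℂ[X]) ((X ^ (g + 1) + C a) ^ 2 - C 4) := by
          refine ((irreducible_X_sub_C (0 : ℂ)).coprime_iff_not_dvd).2 fun h7 => ?_
          have h8 := dvd_iff_isRoot.1 h7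
          rw [IsRoot.def] at h8
          simp only [eval_sub, eval_pow, eval_add, eval_X, eval_C, ne_eq, Nat.add_eq_zero_iff,
            one_ne_zero, and_false, not_false_eq_true, zero_pow, zero_add] at h8
          exact ha (sub_eq_zero.1 h8)
        rw [C_0, sub_zero] at h6
        exact h6.symm
      · refine ⟨-(C (1 / 2) * C (1 / 2)), C (1 / 2) * C (1 / 2) * (X ^ (g + 1) + C a), ?_⟩
        rw [hC4]
        linear_combination (C (1 / 2) * C 2 + 1) * h2
    · have h3 : ((X ^ (g + 1) + C a) ^ 2 - C 4 : ℂ[X]).natDegree =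
          ((X ^ (g + 1) + C a) ^ 2 : ℂ[X]).natDegree := natDegree_sub_C
      rw [h3, natDegree_pow, natDegree_X_pow_add_C]
      ring
    · rw [hC4]
      linear_combination (C (1 / 2) * C 2 + 1) * h2
    · rw [show (X : ℂ[X]) ^ (2 * (g + 1)) = (X ^ (g + 1)) ^ 2 by rw [← pow_mul, mul_comm], hC4]
      rw [hC4] at hCs
      linear_combination C (1 / 2) ^ 2 * (C s ^ 2 - (X ^ (g + 1)) ^ 2) * hCs +
        (C (1 / 2) * C 2 + 1) * (X ^ (g + 1)) ^ 2 * h2
    · rw [natDegree_C_mul (by norm_num), natDegree_X_pow_add_C]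
      omega
    · refine (natDegree_C_mul_le _ _).trans ?_
      rw [← C_pow, add_comm, natDegree_add_C]
      exact natDegree_C_mul_X_pow_le _ _
    · simp only [eval_mul, eval_add, eval_pow, eval_X, eval_C, ne_eq, Nat.add_eq_zero_iff,
        one_ne_zero, and_false, not_false_eq_true, zero_pow, mul_zero, add_zero]
      refine mul_ne_zero (by norm_num) (pow_ne_zero 2 hs0)

end Pool.Agent.Results.MP_b2b689_ag.TwoTorsionPairs
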